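import Pool.Agent.NH90.BS.Non
import Pool.Agent.NH90.BS.Final

/-!
# A Fréchet and a non-Fréchet 𝔟-scale in one model

It is consistent that there are, at the same time, a Fréchet 𝔟-scale and a 𝔟-scale which is not
Fréchet.

Definitions (`Pool.Agent.NH90.BS.Defs`, `Pool.Agent.NH90.BS.Sent`,
`Pool.Agent.Helper669.Forcing`):
* `IsBScale B`: `B` is a 𝔟-scale, that is, a family of increasing functions on `ω^{<ω}` which is
  unbounded and well-ordered by `≤*` in order type `𝔟`, and in which for every `n` the members `f`
  with `f(∅) > n` are cofinal. `bNum` is the bounding number `𝔟`.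
* `UnboundedEverywhere B`: for every infinite set `X` of nodes, the restrictions of the members of
  `B` to `X` are unbounded.
* `Frechet B`: the Dow space of `B` (the topology `dowTop B` on `ω^{<ω}`) is Fréchet-Urysohn.
* `Hyp W γ₀`: the combinatorial hypothesis, for a well-ordered set `W` and `γ₀ : W`. There is a
  sequence of strictly increasing functions `e β : ℕ → ℕ`, `β : W`, strictly increasing modulo
  finite sets and unbounded, with cofinally many large values at `0`, such that for each `γ` the
  sets `U(e β ∘ cd)`, `β < γ`, have a weak form of the pseudo-intersection property; for each `γ`,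
  every family of functions indexed by the `β < γ` is bounded; and there is a tower of length `γ₀`,
  a sequence of infinite sets of natural numbers decreasing modulo finite sets which has no
  infinite pseudo-intersection.
* `HypN P W γ₀`: the set of the conditions of the preorder `P` which force `Hyp W γ₀`; it is the
  literal translation of `Hyp W γ₀` into the forcing language of `P` (`fand`, `fall`, `fex`,
  `fimp`, `fnot`, `fground`, `meets`), in which quantifiers over functions and sets become
  quantifiers over names.
-/

set_option autoImplicit false

namespace Pool.Agent.Results.MP_743798_lc.FrechetAndNot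

open Pool.Agent.NH90.BS

/-- (1) `Hyp W γ₀` implies that there are a 𝔟-scale whose Dow space is Fréchet-Urysohn and a
𝔟-scale whose Dow space is not Fréchet-Urysohn (and both are unbounded on every infinite set of
nodes). (2) There are a well-ordered set `W`, an element `γ₀` and a nonempty preorder of conditions
all elements of which force `Hyp W γ₀`. -/
theorem result :
    (∀ (W : Type) [LinearOrder W] [WellFoundedLT W] (γ₀ : W), Hyp W γ₀ →
      (∃ B, IsBScale B ∧ UnboundedEverywhere B ∧ Frechet B) ∧
        ∃ B, IsBScale B ∧ UnboundedEverywhere B ∧ ¬ Frechet B) ∧
    ∃ (W : Type) (_ : LinearOrder W) (_ : WellFoundedLT W) (γ₀ : W) (P : Type) (_ : Preorder P),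
      Nonempty P ∧ ∀ p : P, p ∈ HypN P W γ₀ :=
  ⟨fun _ _ _ _ h => of_hyp h, exists_forcing_hyp⟩

end Pool.Agent.Results.MP_743798_lc.FrechetAndNot
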